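import Pool.Agent.W170.MV.Final

set_option autoImplicit false

/-!
# Montgomery's large value conjecture holds for the points in rich intervals

Let `|D(t)| > N^σ` for the integers `t ∈ W ⊂ [0,T]` and let `H ≥ √T`. The number of the points
of `W` which lie in intervals `[kH, (k+1)H)` with at least `r` points of `W` is at most
`C (1 + log N)³ N^(2-2σ)`, as soon as `r ≥ C (1 + log N)³ N^(1-2σ) (H + √(N H))`.
-/

namespace Pool.Agent.Results.MP_ecd12e_nt.RichIntervals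

open Finset Pool.Agent.W170.MV

theorem result : ∃ C : ℝ, 0 < C ∧
    ∀ (N r : ℕ) (T H σ : ℝ) (b : ℕ → ℂ) (W : Finset ℤ),
      1 ≤ N → 1 ≤ H → T ≤ H ^ 2 →
      (∀ n ∈ Finset.Icc N (2 * N), ‖b n‖ ≤ 1) →
      (∀ t ∈ W, 0 ≤ (t : ℝ) ∧ (t : ℝ) ≤ T ∧
        (N : ℝ) ^ σ < ‖∑ n ∈ Finset.Icc N (2 * N),
            b n * Complex.exp ((((t : ℝ) * Real.log (n : ℝ) : ℝ) : ℂ) * Complex.I)‖) →
      C * (1 + Real.log N) ^ 3 * (N : ℝ) ^ (1 - 2 * σ) * (H + Real.sqrt (N * H)) ≤ r →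
      ((W.filter (fun t : ℤ => r ≤
          (W.filter (fun u : ℤ => ⌊(u : ℝ) / H⌋ = ⌊(t : ℝ) / H⌋)).card)).card : ℝ) ≤
        C * (1 + Real.log N) ^ 3 * (N : ℝ) ^ (2 - 2 * σ) := by
  classical
  refine ⟨2 * (2688 * C1), by linarith [C1_pos], ?_⟩
  intro N r T H σ b W hN hH hT hb hW hr
  have hN0 : (0 : ℝ) < N := by exact_mod_cast hN
  have hH0 : 0 < H := by linarith
  set F : ℝ → ℝ := fun t => ‖∑ n ∈ Icc N (2 * N),
    b n * Complex.exp (Complex.I * (t * Real.log n : ℝ))‖ with hF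
  have hinj : Function.Injective (fun t : ℤ => (t : ℝ)) := Int.cast_injective
  set S : Finset ℝ := W.image (fun t : ℤ => (t : ℝ)) with hS
  have hFW : ∀ t : ℤ, ‖∑ n ∈ Finset.Icc N (2 * N),
      b n * Complex.exp ((((t : ℝ) * Real.log (n : ℝ) : ℝ) : ℂ) * Complex.I)‖ = F t := by
    intro t
    rw [hF]
    congr 1
    apply sum_congr rfl
    intro n _
    congr 2
    ring
  have hSmem : ∀ t ∈ S, ∃ z ∈ W, (z : ℝ) = t := by
    intro t ht
    rw [hS, mem_image] at ht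
    exact ht
  have hS1 : ∀ t ∈ S, 0 ≤ t ∧ t ≤ H ^ 2 := by
    intro t ht
    obtain ⟨z, hz, rfl⟩ := hSmem t ht
    exact ⟨(hW z hz).1, (hW z hz).2.1.trans hT⟩
  have hS2 : ∀ t ∈ S, ∀ u ∈ S, t ≠ u → 1 ≤ |t - u| := by
    intro t ht u hu htu
    obtain ⟨z, hz, rfl⟩ := hSmem t ht
    obtain ⟨w, hw, rfl⟩ := hSmem u hu
    have hzw : z - w ≠ 0 := by
      intro h
      apply htu
      have : z = w := by omega
      rw [this]
    have := Int.one_le_abs hzw
    rw [← Int.cast_sub, ← Int.cast_abs]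
    exact_mod_cast this
  have hV : (0 : ℝ) < (N : ℝ) ^ σ := Real.rpow_pos_of_pos hN0 σ
  have hVsq : ((N : ℝ) ^ σ) ^ 2 = (N : ℝ) ^ (2 * σ) := by
    rw [← Real.rpow_natCast, ← Real.rpow_mul hN0.le]
    congr 1
    push_cast
    ring
  have hN1 : (N : ℝ) = (N : ℝ) ^ (1 - 2 * σ) * (N : ℝ) ^ (2 * σ) := by
    rw [← Real.rpow_add hN0]
    conv_lhs => rw [← Real.rpow_one (N : ℝ)]
    congr 1
    ring
  have hN2 : (N : ℝ) * N / (N : ℝ) ^ (2 * σ) = (N : ℝ) ^ (2 - 2 * σ) := by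
    rw [Real.rpow_sub hN0, show (2 : ℝ) = ((2 : ℕ) : ℝ) by norm_num, Real.rpow_natCast]
    rw [pow_two]
  have h := rich_points (H := H) (V := (N : ℝ) ^ σ)
    (K := 2688 * C1 * (1 + Real.log N) ^ 3 * N * N)
    (M := 2688 * C1 * (1 + Real.log N) ^ 3 * N * (H + Real.sqrt (N * H))) hV S F
    (by
      intro t ht
      obtain ⟨z, hz, rfl⟩ := hSmem t ht
      have := (hW z hz).2.2
      rw [hFW] at this
      exact this.le) r (by
      intro S' hS'
      have h := clustered_dyadic hH N hN b hb S'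
        (fun t ht => hS1 t (hS' ht))
        (fun t ht u hu => hS2 t (hS' ht) u (hS' hu))
      calc ∑ t ∈ S', F t ^ 2
          ≤ _ := h
        _ = _ := by ring) (by
      rw [hVsq]
      calc 2 * (2688 * C1 * (1 + Real.log N) ^ 3 * N * (H + Real.sqrt (N * H)))
          = 2 * (2688 * C1) * (1 + Real.log N) ^ 3 * (H + Real.sqrt (N * H)) * N := by ring
        _ = 2 * (2688 * C1) * (1 + Real.log N) ^ 3 * (H + Real.sqrt (N * H)) *
              ((N : ℝ) ^ (1 - 2 * σ) * (N : ℝ) ^ (2 * σ)) := by rw [← hN1]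
        _ = (2 * (2688 * C1) * (1 + Real.log N) ^ 3 * (N : ℝ) ^ (1 - 2 * σ) *
              (H + Real.sqrt (N * H))) * (N : ℝ) ^ (2 * σ) := by ring
        _ ≤ r * (N : ℝ) ^ (2 * σ) := by gcongr)
  have hcard : ((W.filter (fun t : ℤ => r ≤
      (W.filter (fun u : ℤ => ⌊(u : ℝ) / H⌋ = ⌊(t : ℝ) / H⌋)).card)).card : ℝ) ≤
      ((S.filter (fun t => r ≤ (S.filter (fun u => ⌊u / H⌋₊ = ⌊t / H⌋₊)).card)).card : ℝ) := by
    have hnn : ∀ t ∈ W, (⌊(t : ℝ) / H⌋₊ : ℤ) = ⌊(t : ℝ) / H⌋ := by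
      intro t ht
      exact Int.natCast_floor_eq_floor (div_nonneg (hW t ht).1 hH0.le)
    rw [← card_image_of_injective _ hinj]
    exact_mod_cast card_le_card (by
      intro x hx
      rw [mem_image] at hx
      obtain ⟨z, hz, rfl⟩ := hx
      rw [mem_filter] at hz
      rw [mem_filter]
      refine ⟨mem_image_of_mem _ hz.1, hz.2.trans ?_⟩
      rw [← card_image_of_injective _ hinj]
      apply card_le_card
      intro y hy
      rw [mem_image] at hy
      obtain ⟨w, hw, rfl⟩ := hy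
      rw [mem_filter] at hw
      rw [mem_filter]
      refine ⟨mem_image_of_mem _ hw.1, ?_⟩
      have h1 := hnn w hw.1
      have h2 := hnn z hz.1
      have h3 := hw.2
      rw [← h1, ← h2] at h3
      exact_mod_cast h3)
  refine hcard.trans (h.trans (le_of_eq ?_))
  rw [hVsq]
  calc 2 * (2688 * C1 * (1 + Real.log N) ^ 3 * N * N) / (N : ℝ) ^ (2 * σ)
      = 2 * (2688 * C1) * (1 + Real.log N) ^ 3 * (N * N / (N : ℝ) ^ (2 * σ)) := by ring
    _ = _ := by rw [hN2]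

end Pool.Agent.Results.MP_ecd12e_nt.RichIntervals
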